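import Mathlib
import Pool.Agent.Q33.Harm.Jacob

/-!
For `a(n) = ∑ j, C(n+j,j) C(n,j) C(n-j,j)`, every prime `p > 3` and every `n ≥ 1`, the number
`(a(pn) - a(n)) / (pn)^3` is a `p`-adic integer.
-/

namespace Pool.Agent.Results.MP_ebce10_nt.CubicSupercongruence

open Finset

/-- `a(n) = ∑_{j=0}^n C(n+j,j) C(n,j) C(n-j,j)`. -/
def a (n : ℕ) : ℕ :=
  ∑ j ∈ range (n + 1), Nat.choose (n + j) j * Nat.choose n j * Nat.choose (n - j) j

/-- `2 cos (π t / 3)`. -/
def ell (t : ℤ) : ℤ :=
  if t % 6 = 0 then 2 else if t % 6 = 1 ∨ t % 6 = 5 then 1 else if t % 6 = 3 then -2 else -1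

theorem ell_add (t : ℤ) : ell (t + 1) + ell (t - 1) = ell t := by
  unfold ell
  have h : t % 6 = 0 ∨ t % 6 = 1 ∨ t % 6 = 2 ∨ t % 6 = 3 ∨ t % 6 = 4 ∨ t % 6 = 5 := by omega
  rcases h with h | h | h | h | h | h
  · have h1 : (t + 1) % 6 = 1 := by omega
    have h2 : (t - 1) % 6 = 5 := by omega
    simp [h, h1, h2]
  · have h1 : (t + 1) % 6 = 2 := by omega
    have h2 : (t - 1) % 6 = 0 := by omega
    simp [h, h1, h2]
  · have h1 : (t + 1) % 6 = 3 := by omega
    have h2 : (t - 1) % 6 = 1 := by omega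
    simp [h, h1, h2]
  · have h1 : (t + 1) % 6 = 4 := by omega
    have h2 : (t - 1) % 6 = 2 := by omega
    simp [h, h1, h2]
  · have h1 : (t + 1) % 6 = 5 := by omega
    have h2 : (t - 1) % 6 = 3 := by omega
    simp [h, h1, h2]
  · have h1 : (t + 1) % 6 = 0 := by omega
    have h2 : (t - 1) % 6 = 4 := by omega
    simp [h, h1, h2]

theorem ell_mul {p : ℕ} (hp : p.Prime) (h3 : 3 < p) (t : ℤ) : ell (p * t) = ell t := by
  have h2' : p % 2 = 1 := by
    rcases Nat.Prime.eq_two_or_odd hp with h | h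
    · omega
    · exact h
  have h3' : p % 3 ≠ 0 := by
    intro h
    have : 3 ∣ p := Nat.dvd_of_mod_eq_zero h
    rcases (Nat.dvd_prime hp).1 this with h4 | h4 <;> omega
  have h6 : p % 6 = 1 ∨ p % 6 = 5 := by omega
  have hpz : (p : ℤ) % 6 = 1 ∨ (p : ℤ) % 6 = 5 := by omega
  have h : t % 6 = 0 ∨ t % 6 = 1 ∨ t % 6 = 2 ∨ t % 6 = 3 ∨ t % 6 = 4 ∨ t % 6 = 5 := by omega
  unfold ell
  rcases hpz with hpz | hpz <;> rcases h with h | h | h | h | h | h <;>
    simp [Int.mul_emod, h, hpz]

theorem sum_ell (N : ℕ) (s : ℤ) :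
    ∑ i ∈ range (N + 1), (Nat.choose N i : ℤ) * ell (s + N - 2 * i) = ell s := by
  induction N generalizing s with
  | zero => simp
  | succ N ih =>
    have h1 : ∑ i ∈ range (N + 1 + 1), (Nat.choose (N + 1) i : ℤ) *
        ell (s + ((N + 1 : ℕ) : ℤ) - 2 * i) =
        ∑ i ∈ range (N + 1), (Nat.choose N i : ℤ) * ell (s + 1 + N - 2 * i) +
        ∑ i ∈ range (N + 1), (Nat.choose N i : ℤ) * ell (s - 1 + N - 2 * i) := by
      rw [sum_range_succ']
      have h2 : ∀ i ∈ range (N + 1), (Nat.choose (N + 1) (i + 1) : ℤ) *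
          ell (s + ((N + 1 : ℕ) : ℤ) - 2 * ((i + 1 : ℕ) : ℤ)) =
          (Nat.choose N i : ℤ) * ell (s - 1 + N - 2 * i) +
          (Nat.choose N (i + 1) : ℤ) * ell (s + 1 + N - 2 * ((i + 1 : ℕ) : ℤ)) := by
        intro i _
        rw [Nat.choose_succ_succ]
        push_cast
        rw [show s + ((N : ℤ) + 1) - 2 * (i + 1) = s - 1 + N - 2 * i by ring,
          show s + 1 + (N : ℤ) - 2 * (i + 1) = s - 1 + N - 2 * i by ring]
        ring
      rw [sum_congr rfl h2, sum_add_distrib]
      have h3 : ∑ i ∈ range (N + 1), (Nat.choose N (i + 1) : ℤ) *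
          ell (s + 1 + N - 2 * ((i + 1 : ℕ) : ℤ)) + (Nat.choose (N + 1) 0 : ℤ) *
          ell (s + ((N + 1 : ℕ) : ℤ) - 2 * ((0 : ℕ) : ℤ)) =
          ∑ i ∈ range (N + 1), (Nat.choose N i : ℤ) * ell (s + 1 + N - 2 * i) := by
        have h4 := sum_range_succ' (fun i => (Nat.choose N i : ℤ) *
          ell (s + 1 + N - 2 * i)) (N + 1)
        rw [sum_range_succ, Nat.choose_succ_self, Nat.cast_zero, zero_mul, add_zero] at h4
        rw [h4]
        congr 1
        simp only [Nat.choose_zero_right, Nat.cast_one, Nat.cast_zero, mul_zero, sub_zero, one_mul]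
        congr 1
        push_cast
        ring
      linarith
    rw [h1, ih, ih, ell_add]

/-- Vandermonde -/
theorem vand (A B k : ℕ) :
    ∑ j ∈ range (B + 1), Nat.choose A (j + k) * Nat.choose B j = Nat.choose (A + B) (B + k) := by
  rw [Nat.add_comm A B, Nat.add_choose_eq, Finset.Nat.sum_antidiagonal_eq_sum_range_succ
    (fun x y => Nat.choose B x * Nat.choose A y)]
  symm
  rw [show (B + k).succ = (B + 1) + k by rw [Nat.succ_eq_add_one]; ring, sum_range_add]
  have hz : ∑ x ∈ range k, Nat.choose B (B + 1 + x) * Nat.choose A (B + k - (B + 1 + x)) = 0 := by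
    refine sum_eq_zero fun x _ => ?_
    rw [Nat.choose_eq_zero_of_lt (by omega), zero_mul]
  rw [hz, add_zero, ← sum_range_reflect]
  refine sum_congr rfl fun j hj => ?_
  rw [mem_range] at hj
  rw [show B + 1 - 1 - j = B - j by omega, Nat.choose_symm (by omega),
    show B + k - (B - j) = j + k by omega, mul_comm]

theorem sum_extend (f : ℕ → ℕ) (M N : ℕ) (h : M ≤ N) (hz : ∀ j, M < j → f j = 0) :
    ∑ j ∈ range (N + 1), f j = ∑ j ∈ range (M + 1), f j := by
  obtain ⟨d, rfl⟩ := Nat.exists_eq_add_of_le h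
  rw [show M + d + 1 = (M + 1) + d by ring, sum_range_add]
  rw [sum_eq_zero (s := range d) (fun x _ => hz _ (by omega)), add_zero]

/-- `∑_j C(k,j) C(m,j) C(k+m+j,j) = C(k+m,k)^2` -/
theorem sq_identity (k m : ℕ) :
    ∑ j ∈ range (k + m + 1), Nat.choose (k + m + j) j * (Nat.choose k j * Nat.choose m j) =
      Nat.choose (k + m) k ^ 2 := by
  -- expand `C(n+j,j)`
  have h1 : ∀ j ∈ range (k + m + 1), Nat.choose (k + m + j) j * (Nat.choose k j * Nat.choose m j) =
      ∑ l ∈ range (k + m + 1), Nat.choose (k + m) l *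
        (Nat.choose k j * Nat.choose j l * Nat.choose m j) := by
    intro j hj
    rw [mem_range] at hj
    have h := vand (k + m) j 0
    simp only [add_zero] at h
    rw [← h, ← sum_extend (fun l => Nat.choose (k + m) l * Nat.choose j l) j (k + m) (by omega)
      (fun l hl => by rw [Nat.choose_eq_zero_of_lt hl, mul_zero]), sum_mul]
    refine sum_congr rfl fun l _ => ?_
    ring
  rw [sum_congr rfl h1, sum_comm]
  have h2 : ∀ l ∈ range (k + m + 1), ∑ j ∈ range (k + m + 1), Nat.choose (k + m) l *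
      (Nat.choose k j * Nat.choose j l * Nat.choose m j) =
      Nat.choose (k + m) k * (Nat.choose k l * Nat.choose m l) := by
    intro l hl
    rw [mem_range] at hl
    rw [← mul_sum]
    rcases le_or_gt l k with hlk | hlk
    · have h3 : ∑ j ∈ range (k + m + 1), Nat.choose k j * Nat.choose j l * Nat.choose m j =
          Nat.choose k l * Nat.choose (k + m - l) k := by
        rw [sum_extend _ k (k + m) (by omega)
          (fun j hj => by rw [Nat.choose_eq_zero_of_lt hj, zero_mul, zero_mul])]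
        obtain ⟨d, rfl⟩ := Nat.exists_eq_add_of_le hlk
        rw [show l + d + 1 = l + (d + 1) by ring, sum_range_add]
        have hz : ∑ x ∈ range l, Nat.choose (l + d) x * Nat.choose x l * Nat.choose m x = 0 := by
          refine sum_eq_zero fun x hx => ?_
          rw [mem_range] at hx
          rw [Nat.choose_eq_zero_of_lt hx, mul_zero, zero_mul]
        rw [hz, zero_add]
        have h4 : ∀ x ∈ range (d + 1), Nat.choose (l + d) (l + x) * Nat.choose (l + x) l *
            Nat.choose m (l + x) = Nat.choose (l + d) l * (Nat.choose m (x + l) * Nat.choose d x) := by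
          intro x hx
          rw [mem_range] at hx
          rw [Nat.choose_mul (by omega), show l + d - l = d by omega,
            show l + x - l = x by omega, add_comm l x]
          ring
        rw [sum_congr rfl h4, ← mul_sum, vand]
        rw [show l + d + m - l = m + d by omega, show d + l = l + d by ring]
      rw [h3]
      -- `C(n,l) C(n-l,k) = C(n,k) C(m,l)`
      rcases le_or_gt l m with hlm | hlm
      · have h5 : Nat.choose (k + m) (k + l) * Nat.choose (k + l) l =
            Nat.choose (k + m) l * Nat.choose (k + m - l) k := by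
          rw [Nat.choose_mul (by omega)]
          congr 2; omega
        have h6 : Nat.choose (k + m) (k + l) * Nat.choose (k + l) k =
            Nat.choose (k + m) k * Nat.choose m l := by
          rw [Nat.choose_mul (by omega)]
          congr 2 <;> omega
        have h7 : Nat.choose (k + l) l = Nat.choose (k + l) k := by
          rw [← Nat.choose_symm_add]
        calc Nat.choose (k + m) l * (Nat.choose k l * Nat.choose (k + m - l) k)
            = Nat.choose k l * (Nat.choose (k + m) l * Nat.choose (k + m - l) k) := by ring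
          _ = Nat.choose k l * (Nat.choose (k + m) k * Nat.choose m l) := by
              rw [← h5, h7, h6]
          _ = _ := by ring
      · rw [Nat.choose_eq_zero_of_lt hlm, Nat.choose_eq_zero_of_lt (show k + m - l < k by omega)]
        simp
    · rw [Nat.choose_eq_zero_of_lt hlk, zero_mul, mul_zero]
      apply mul_eq_zero_of_right
      refine sum_eq_zero fun j _ => ?_
      rcases lt_or_ge k j with h | h
      · rw [Nat.choose_eq_zero_of_lt h, zero_mul, zero_mul]
      · rw [Nat.choose_eq_zero_of_lt (show j < l by omega), mul_zero, zero_mul]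
  rw [sum_congr rfl h2, ← mul_sum, sum_extend _ m (k + m) (by omega)
    (fun j hj => by rw [Nat.choose_eq_zero_of_lt hj, mul_zero])]
  have h8 := vand k m 0
  simp only [add_zero] at h8
  rw [h8, ← Nat.choose_symm_add, sq]

/-- `2 a(n) = ∑_k C(n,k)^3 2 cos (π (n - 2k) / 3)` -/
theorem two_a (n : ℕ) :
    2 * (a n : ℤ) = ∑ k ∈ range (n + 1), (Nat.choose n k : ℤ) ^ 3 * ell (n - 2 * k) := by
  have h1 : ∀ k ∈ range (n + 1), (Nat.choose n k : ℤ) ^ 3 * ell (n - 2 * k) =
      ∑ j ∈ range (n + 1), (Nat.choose n k : ℤ) * ell (n - 2 * k) *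
        ((Nat.choose (n + j) j : ℤ) * (Nat.choose k j * Nat.choose (n - k) j)) := by
    intro k hk
    rw [mem_range] at hk
    have h := sq_identity k (n - k)
    rw [show k + (n - k) = n by omega] at h
    have h' := congrArg (Nat.cast : ℕ → ℤ) h
    push_cast at h'
    rw [← mul_sum, h']
    ring
  rw [sum_congr rfl h1, sum_comm, a, Nat.cast_sum, mul_sum]
  refine sum_congr rfl fun j hj => ?_
  rw [mem_range] at hj
  -- inner sum over `k`
  rcases le_or_gt (2 * j) n with h2 | h2
  · obtain ⟨N, rfl⟩ : ∃ N, n = N + 2 * j := ⟨n - 2 * j, by omega⟩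
    have h3 : ∑ k ∈ range (N + 2 * j + 1), (Nat.choose (N + 2 * j) k : ℤ) *
        ell (((N + 2 * j : ℕ) : ℤ) - 2 * k) * ((Nat.choose (N + 2 * j + j) j : ℤ) *
          (Nat.choose k j * Nat.choose (N + 2 * j - k) j)) =
        ∑ i ∈ range (N + 1), (Nat.choose (N + 2 * j + j) j : ℤ) * Nat.choose (N + 2 * j) j *
          Nat.choose (N + 2 * j - j) j * ((Nat.choose N i : ℤ) * ell (0 + N - 2 * i)) := by
      rw [show N + 2 * j + 1 = j + (N + 1 + j) by ring, sum_range_add, sum_range_add]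
      have hz1 : ∑ x ∈ range j, (Nat.choose (N + 2 * j) x : ℤ) *
          ell (((N + 2 * j : ℕ) : ℤ) - 2 * x) * ((Nat.choose (N + 2 * j + j) j : ℤ) *
          (Nat.choose x j * Nat.choose (N + 2 * j - x) j)) = 0 := by
        refine sum_eq_zero fun x hx => ?_
        rw [mem_range] at hx
        rw [Nat.choose_eq_zero_of_lt hx]; simp
      have hz2 : ∑ x ∈ range j, (Nat.choose (N + 2 * j) (j + (N + 1 + x)) : ℤ) *
          ell (((N + 2 * j : ℕ) : ℤ) - 2 * ((j + (N + 1 + x) : ℕ) : ℤ)) *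
          ((Nat.choose (N + 2 * j + j) j : ℤ) *
          (Nat.choose (j + (N + 1 + x)) j * Nat.choose (N + 2 * j - (j + (N + 1 + x))) j)) = 0 := by
        refine sum_eq_zero fun x hx => ?_
        rw [mem_range] at hx
        rw [Nat.choose_eq_zero_of_lt (show N + 2 * j - (j + (N + 1 + x)) < j by omega)]; simp
      rw [hz1, hz2, zero_add, add_zero]
      refine sum_congr rfl fun i hi => ?_
      rw [mem_range] at hi
      -- multinomial rearrangement
      have e1 : Nat.choose (N + 2 * j) (j + i) * Nat.choose (j + i) j =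
          Nat.choose (N + 2 * j) j * Nat.choose (N + j) i := by
        rw [Nat.choose_mul (by omega)]
        congr 2 <;> omega
      have e2 : Nat.choose (N + j) i * Nat.choose (N + j - i) j =
          Nat.choose (N + j) j * Nat.choose N i := by
        have h5 : Nat.choose (N + j) (j + i) * Nat.choose (j + i) i =
            Nat.choose (N + j) i * Nat.choose (N + j - i) j := by
          rw [Nat.choose_mul (by omega)]
          congr 2; omega
        have h6 : Nat.choose (N + j) (j + i) * Nat.choose (j + i) j =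
            Nat.choose (N + j) j * Nat.choose N i := by
          rw [Nat.choose_mul (by omega)]
          congr 2 <;> omega
        rw [← h5, ← h6, Nat.choose_symm_add]
      have e3 : N + 2 * j - (j + i) = N + j - i := by omega
      have e4 : N + 2 * j - j = N + j := by omega
      rw [e3, e4]
      have e5 : (((N + 2 * j : ℕ) : ℤ) - 2 * ((j + i : ℕ) : ℤ)) = 0 + N - 2 * i := by
        push_cast; ring
      rw [e5]
      have e1' := congrArg (Nat.cast : ℕ → ℤ) e1
      have e2' := congrArg (Nat.cast : ℕ → ℤ) e2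
      push_cast at e1' e2'
      linear_combination (ell (0 + N - 2 * i) * (Nat.choose (N + 2 * j + j) j : ℤ) *
        (Nat.choose (N + j - i) j : ℤ)) * e1' + (ell (0 + N - 2 * i) *
        (Nat.choose (N + 2 * j + j) j : ℤ) * (Nat.choose (N + 2 * j) j : ℤ)) * e2'
    rw [h3, ← mul_sum, sum_ell]
    push_cast
    unfold ell
    simp
    ring
  · rw [Nat.choose_eq_zero_of_lt (show n - j < j by omega)]
    rw [mul_zero, Nat.cast_zero, mul_zero]
    symm
    refine sum_eq_zero fun k hk => ?_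
    rw [mem_range] at hk
    rcases lt_or_ge k j with h | h
    · rw [Nat.choose_eq_zero_of_lt h]; simp
    · rw [Nat.choose_eq_zero_of_lt (show n - k < j by omega)]; simp

theorem not_multiple {p : ℕ} (hp : p.Prime) (e n k : ℕ) (hn : p ^ e ∣ n) (hk : ¬ p ∣ k) :
    (p : ℤ) ^ (3 + 3 * e) ∣ (Nat.choose (p * n) k : ℤ) ^ 3 := by
  have h1 : p ^ (1 + e) ∣ Nat.choose (p * n) k := by
    rcases Nat.eq_zero_or_pos k with rfl | hk0
    · exact absurd (dvd_zero p) hk
    rcases Nat.eq_zero_or_pos n with rfl | hn0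
    · rw [mul_zero, Nat.choose_eq_zero_of_lt hk0]; exact dvd_zero _
    obtain ⟨N, hN⟩ : ∃ N, p * n = N + 1 := ⟨p * n - 1, by
      have := Nat.mul_pos hp.pos hn0
      omega⟩
    obtain ⟨K, rfl⟩ : ∃ K, k = K + 1 := ⟨k - 1, by omega⟩
    have h2 := Nat.add_one_mul_choose_eq N K
    rw [← hN] at h2
    have h3 : p ^ (1 + e) ∣ Nat.choose (p * n) (K + 1) * (K + 1) := by
      rw [← h2, pow_add, pow_one]
      exact (mul_dvd_mul_left p hn).mul_right _
    exact (Nat.Coprime.dvd_mul_right
      (Nat.Coprime.pow_left _ ((Nat.Prime.coprime_iff_not_dvd hp).2 hk))).1 h3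
  have h2 : ((p ^ (1 + e) : ℕ) : ℤ) ∣ (Nat.choose (p * n) k : ℤ) := Int.natCast_dvd_natCast.2 h1
  have h3 := pow_dvd_pow_of_dvd h2 3
  push_cast at h3
  rw [← pow_mul] at h3
  rwa [show (1 + e) * 3 = 3 + 3 * e by ring] at h3

/-- splitting off the multiples of `p` -/
theorem split_sum (p n : ℕ) (hp : 0 < p) (f : ℕ → ℤ) :
    ∑ k ∈ range (p * n + 1), f k =
      ∑ i ∈ range (n + 1), f (p * i) + ∑ k ∈ (range (p * n + 1)).filter (fun k => ¬ p ∣ k), f k := by
  rw [← sum_filter_add_sum_filter_not (range (p * n + 1)) (fun k => p ∣ k)]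
  congr 1
  symm
  refine sum_bij (fun i _ => p * i) ?_ ?_ ?_ ?_
  · intro i hi
    rw [mem_range] at hi
    rw [mem_filter, mem_range]
    refine ⟨?_, dvd_mul_right p i⟩
    have : p * i ≤ p * n := Nat.mul_le_mul_left _ (by omega)
    omega
  · intro i _ j _ h
    exact Nat.eq_of_mul_eq_mul_left hp h
  · intro k hk
    rw [mem_filter, mem_range] at hk
    obtain ⟨i, rfl⟩ := hk.2
    refine ⟨i, ?_, rfl⟩
    rw [mem_range]
    have : p * i ≤ p * n := by omega
    have := Nat.le_of_mul_le_mul_left this hp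
    omega
  · intro i _; rfl

theorem main {p : ℕ} (hp : p.Prime) (h3 : 3 < p) (e n : ℕ) (hn : p ^ e ∣ n) :
    (p : ℤ) ^ (3 + 3 * e) ∣ (a (p * n) : ℤ) - a n := by
  have : Fact p.Prime := ⟨hp⟩
  have h5 : 5 ≤ p := by
    have : p ≠ 4 := by rintro rfl; exact absurd hp (by norm_num)
    omega
  have h1 : 2 * ((a (p * n) : ℤ) - a n) =
      ∑ i ∈ range (n + 1), ((Nat.choose (p * n) (p * i) : ℤ) ^ 3 - (Nat.choose n i : ℤ) ^ 3) *
        ell (n - 2 * i) +
      ∑ k ∈ (range (p * n + 1)).filter (fun k => ¬ p ∣ k),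
        (Nat.choose (p * n) k : ℤ) ^ 3 * ell (((p * n : ℕ) : ℤ) - 2 * k) := by
    rw [mul_sub, two_a, two_a, split_sum p n hp.pos]
    have h6 : ∀ i ∈ range (n + 1), ((Nat.choose (p * n) (p * i) : ℤ) ^ 3 -
        (Nat.choose n i : ℤ) ^ 3) * ell (n - 2 * i) =
        (Nat.choose (p * n) (p * i) : ℤ) ^ 3 * ell (((p * n : ℕ) : ℤ) - 2 * ((p * i : ℕ) : ℤ)) -
        (Nat.choose n i : ℤ) ^ 3 * ell (n - 2 * i) := by
      intro i _
      have : (((p * n : ℕ) : ℤ) - 2 * ((p * i : ℕ) : ℤ)) = p * ((n : ℤ) - 2 * i) := by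
        push_cast; ring
      rw [this, ell_mul hp h3]
      ring
    rw [sum_congr rfl h6, sum_sub_distrib]
    ring
  have h7 : (p : ℤ) ^ (3 + 3 * e) ∣ 2 * ((a (p * n) : ℤ) - a n) := by
    rw [h1]
    refine dvd_add (dvd_sum fun i hi => ?_) (dvd_sum fun k hk => ?_)
    · rw [mem_range] at hi
      exact (Q33.Harm.cube_congr h5 e n i hn (by omega)).mul_right _
    · rw [mem_filter] at hk
      exact (not_multiple hp e n k hn hk.2).mul_right _
  have hcop : IsCoprime ((p : ℤ) ^ (3 + 3 * e)) 2 := by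
    apply IsCoprime.pow_left
    rw [Int.isCoprime_iff_gcd_eq_one]
    have : Nat.Coprime p 2 := (Nat.Prime.coprime_iff_not_dvd hp).2 (fun h => by
      have := Nat.le_of_dvd (by norm_num) h
      omega)
    simpa [Int.gcd] using this
  exact hcop.dvd_of_dvd_mul_left h7

theorem result :
    (∀ p : ℕ, p.Prime → 3 < p → ∀ n : ℕ, 0 < n →
      ¬ p ∣ (((a (p * n) : ℚ) - a n) / ((p * n : ℕ) : ℚ) ^ 3).den) ∧
    (∀ p : ℕ, p.Prime → 3 < p → ∀ n : ℕ, 0 < n →
      (p : ℤ) ^ (3 + 3 * padicValNat p n) ∣ (a (p * n) : ℤ) - a n) := by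
  have h2 : ∀ p : ℕ, p.Prime → 3 < p → ∀ n : ℕ, 0 < n →
      (p : ℤ) ^ (3 + 3 * padicValNat p n) ∣ (a (p * n) : ℤ) - a n := by
    intro p hp h3 n _
    exact main hp h3 _ n pow_padicValNat_dvd
  refine ⟨?_, h2⟩
  intro p hp h3 n hn hd
  obtain ⟨f, n', hn', hnn⟩ := Nat.exists_eq_pow_mul_and_not_dvd hn.ne' p hp.ne_one
  have h4 := main hp h3 f n ⟨n', hnn⟩
  obtain ⟨D, hD⟩ := h4
  have hn0 : n' ≠ 0 := by rintro rfl; simp at hn'
  have hq : (((a (p * n) : ℚ) - a n) / ((p * n : ℕ) : ℚ) ^ 3) = (D : ℚ) / ((n' ^ 3 : ℕ) : ℚ) := by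
    have hD' : (a (p * n) : ℚ) - a n = (p : ℚ) ^ (3 + 3 * f) * D := by exact_mod_cast hD
    have hpq : (p : ℚ) ≠ 0 := by exact_mod_cast hp.ne_zero
    have hnq : (n' : ℚ) ≠ 0 := by exact_mod_cast hn0
    have h10 : (((p * n : ℕ) : ℚ)) ^ 3 = (p : ℚ) ^ (3 + 3 * f) * (n' : ℚ) ^ 3 := by
      rw [hnn]; push_cast; ring
    rw [hD', h10]
    push_cast
    rw [mul_div_mul_left _ _ (pow_ne_zero _ hpq)]
  rw [hq] at hd
  have h5 : ((D : ℚ) / ((n' ^ 3 : ℕ) : ℚ)).den ∣ n' ^ 3 := by
    have := Rat.den_dvd D ((n' ^ 3 : ℕ) : ℤ)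
    rw [← Rat.intCast_div_eq_divInt] at this
    exact_mod_cast this
  exact hn' (hp.dvd_of_dvd_pow (hd.trans h5))

end Pool.Agent.Results.MP_ebce10_nt.CubicSupercongruence
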